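import Mathlib

/-!
# Critical finite commutative rings

Rings are associative and need not have an identity.  A ring `R` is critical when it does not lie
in the variety generated by its proper quotients `R / I`, `I ≠ 0`.  We determine all finite
commutative critical rings.
-/

set_option autoImplicit false

namespace Pool.Agent.Results.MP_c0911c_al.CriticalRings

universe u

/-- Terms in the language `(+, -, 0, ·)` of rings, in countably many variables. -/
inductive RTerm : Type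
  | var : ℕ → RTerm
  | zero : RTerm
  | add : RTerm → RTerm → RTerm
  | neg : RTerm → RTerm
  | mul : RTerm → RTerm → RTerm

/-- The value of a term in a ring. -/
def RTerm.eval {A : Type u} [NonUnitalRing A] (v : ℕ → A) : RTerm → A
  | .var n => v n
  | .zero => 0
  | .add s t => s.eval v + t.eval v
  | .neg s => -(s.eval v)
  | .mul s t => s.eval v * t.eval v

/-- The identity `s = t` holds in the ring `A`. -/
def Holds (A : Type u) [NonUnitalRing A] (s t : RTerm) : Prop :=
  ∀ v : ℕ → A, s.eval v = t.eval v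

/-- `R` lies in the variety generated by its proper quotient rings: every identity which holds in
all `R / I` with `I ≠ 0` holds in `R`. -/
def InVarietyOfProperQuotients (R : Type u) [NonUnitalRing R] : Prop :=
  ∀ s t : RTerm, (∀ I : TwoSidedIdeal R, I ≠ ⊥ → Holds I.ringCon.Quotient s t) → Holds R s t

/-- `R` is critical. -/
def IsCritical (R : Type u) [NonUnitalRing R] : Prop :=
  ¬ InVarietyOfProperQuotients R

/-- `R` has a least nonzero ideal. -/
def HasLeastNonzeroIdeal (R : Type u) [NonUnitalRing R] : Prop :=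
  ∃ H : TwoSidedIdeal R, H ≠ ⊥ ∧ ∀ I : TwoSidedIdeal R, I ≠ ⊥ → H ≤ I

/-- `R` has an identity `e ≠ 0`, a largest proper ideal `M` (so it is a local ring), and the
annihilator of `M` is a minimal ideal (the socle is simple). -/
def IsLocalWithSimpleSocle (R : Type u) [NonUnitalCommRing R] : Prop :=
  ∃ e : R, e ≠ 0 ∧ (∀ x : R, e * x = x) ∧
    ∃ M : TwoSidedIdeal R, M ≠ ⊤ ∧ (∀ I : TwoSidedIdeal R, I ≠ ⊤ → I ≤ M) ∧
      ∃ S : TwoSidedIdeal R, (∀ x : R, x ∈ S ↔ ∀ m ∈ M, m * x = 0) ∧ IsAtom S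

/-- `R` is nilpotent (for some `n` all products `a₁ (a₂ (⋯ (aₙ x)))` vanish), and its annihilator
`{x | ∀ y, x y = 0}` is a cyclic group of order `p ^ k` for some prime `p` and some `k ≥ 1`. -/
def IsNilpotentWithCyclicAnnihilator (R : Type u) [NonUnitalCommRing R] : Prop :=
  (∃ n : ℕ, ∀ (l : List R) (x : R), l.length = n → l.foldr (· * ·) x = 0) ∧
    ∃ (p k : ℕ) (g : R), p.Prime ∧ 1 ≤ k ∧ addOrderOf g = p ^ k ∧
      ∀ x : R, (∀ y : R, x * y = 0) ↔ ∃ n : ℤ, x = n • g

/-! ### Identities in quotients -/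

section quot

variable {R : Type u} [NonUnitalRing R]

lemma coe_eval (I : TwoSidedIdeal R) (v : ℕ → R) (t : RTerm) :
    ((t.eval v : R) : I.ringCon.Quotient) =
      t.eval (fun n => ((v n : R) : I.ringCon.Quotient)) := by
  induction t with
  | var n => rfl
  | zero => rfl
  | add s t hs ht => simp only [RTerm.eval, RingCon.coe_add, hs, ht]
  | neg s hs => simp only [RTerm.eval, RingCon.coe_neg, hs]
  | mul s t hs ht => simp only [RTerm.eval, RingCon.coe_mul, hs, ht]

lemma holds_quot (I : TwoSidedIdeal R) (s t : RTerm) :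
    Holds I.ringCon.Quotient s t ↔ ∀ v : ℕ → R, s.eval v - t.eval v ∈ I := by
  constructor
  · intro h v
    have h1 := h (fun n => ((v n : R) : I.ringCon.Quotient))
    rw [← coe_eval, ← coe_eval, RingCon.eq, TwoSidedIdeal.rel_iff] at h1
    exact h1
  · intro h w
    have hs : ∀ q : I.ringCon.Quotient, ∃ a : R, (a : I.ringCon.Quotient) = q := by
      intro q
      induction q using Quotient.inductionOn' with
      | h a => exact ⟨a, rfl⟩
    choose g hg using hs
    have hw : w = fun n => ((g (w n) : R) : I.ringCon.Quotient) := by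
      funext n; exact (hg _).symm
    rw [hw, ← coe_eval, ← coe_eval, RingCon.eq, TwoSidedIdeal.rel_iff]
    exact h _

lemma least_of_critical (h : IsCritical R) : HasLeastNonzeroIdeal R := by
  unfold IsCritical InVarietyOfProperQuotients at h
  push Not at h
  obtain ⟨s, t, h1, h2⟩ := h
  unfold Holds at h2
  push Not at h2
  obtain ⟨v, hv⟩ := h2
  refine ⟨TwoSidedIdeal.mk' {x | ∀ I : TwoSidedIdeal R, I ≠ ⊥ → x ∈ I}
    (fun I _ => I.zero_mem) (fun {x y} hx hy I hI => I.add_mem (hx I hI) (hy I hI))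
    (fun {x} hx I hI => I.neg_mem (hx I hI))
    (fun {x y} hy I hI => I.mul_mem_left _ _ (hy I hI))
    (fun {x y} hx I hI => I.mul_mem_right _ _ (hx I hI)), ?_, ?_⟩
  · intro hbot
    have h3 : s.eval v - t.eval v ∈ TwoSidedIdeal.mk' {x | ∀ I : TwoSidedIdeal R, I ≠ ⊥ → x ∈ I}
        (fun I _ => I.zero_mem) (fun {x y} hx hy I hI => I.add_mem (hx I hI) (hy I hI))
        (fun {x} hx I hI => I.neg_mem (hx I hI))
        (fun {x y} hy I hI => I.mul_mem_left _ _ (hy I hI))
        (fun {x y} hx I hI => I.mul_mem_right _ _ (hx I hI)) := by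
      rw [TwoSidedIdeal.mem_mk']
      intro I hI
      exact (holds_quot I s t).1 (h1 I hI) v
    rw [hbot, TwoSidedIdeal.mem_bot] at h3
    exact hv (sub_eq_zero.1 h3)
  · intro I hI x hx
    rw [TwoSidedIdeal.mem_mk'] at hx
    exact hx I hI

end quot


/-! ### Powers and nilpotency -/

section powers

/-- `npw x n = x ^ (n + 1)`. -/
def npw {A : Type u} [NonUnitalRing A] (x : A) : ℕ → A
  | 0 => x
  | n + 1 => x * npw x n

lemma npw_mul {A : Type u} [NonUnitalRing A] (x : A) (m n : ℕ) :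
    npw x m * npw x n = npw x (m + n + 1) := by
  induction m with
  | zero => simp [npw]
  | succ m ih =>
    rw [npw, mul_assoc, ih, show m + 1 + n + 1 = (m + n + 1) + 1 by ring]
    rfl

lemma npw_pi {ι A : Type u} [NonUnitalRing A] (f : ι → A) (n : ℕ) (i : ι) :
    npw f n i = npw (f i) n := by
  induction n with
  | zero => rfl
  | succ n ih => simp [npw, ih]

lemma exists_idem {A : Type u} [NonUnitalRing A] [Finite A] (x : A) :
    ∃ n, npw x n * npw x n = npw x n := by
  obtain ⟨i, j, hij, h⟩ := Finite.exists_ne_map_eq_of_infinite (npw x)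
  wlog hlt : i < j generalizing i j
  · exact this j i hij.symm h.symm (lt_of_le_of_ne (not_lt.1 hlt) hij.symm)
  obtain ⟨d, rfl⟩ := Nat.exists_eq_add_of_lt hlt
  -- period `d + 1`
  have h1 : ∀ n, i ≤ n → npw x n = npw x (n + (d + 1)) := by
    intro n hn
    rcases Nat.eq_or_lt_of_le hn with h0 | h0
    · rw [← h0, h]; rfl
    · obtain ⟨r, rfl⟩ := Nat.exists_eq_add_of_lt h0
      rw [← npw_mul, h, npw_mul]
      congr 1; ring
  have h2 : ∀ k n, i ≤ n → npw x n = npw x (n + k * (d + 1)) := by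
    intro k
    induction k with
    | zero => intro n _; simp
    | succ k ih =>
      intro n hn
      rw [ih n hn, h1 _ (by omega)]
      congr 1; ring
  refine ⟨(i + 1) * (d + 1) - 1, ?_⟩
  have h3 : 1 ≤ (i + 1) * (d + 1) := Nat.succ_le_of_lt (by positivity)
  have h4 : i + 1 ≤ (i + 1) * (d + 1) := Nat.le_mul_of_pos_right _ (by omega)
  rw [npw_mul, h2 (i + 1) ((i + 1) * (d + 1) - 1) (by omega)]
  congr 1

lemma exists_common_idem (A : Type u) [NonUnitalRing A] [Finite A] :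
    ∃ n, ∀ x : A, npw x n * npw x n = npw x n := by
  obtain ⟨n, hn⟩ := exists_idem (A := A → A) id
  refine ⟨n, fun x => ?_⟩
  have := congrFun hn x
  simpa [npw_pi] using this

variable {R : Type u} [NonUnitalCommRing R]

lemma exists_embedding (R : Type u) [NonUnitalCommRing R] :
    ∃ (U : Type u) (_ : CommRing U) (f : R →ₙ+* U), Function.Injective f :=
  ⟨Unitization ℤ R, inferInstance, Unitization.inrNonUnitalAlgHom ℤ R, Unitization.inr_injective⟩

lemma map_npw {U : Type u} [CommRing U] (f : R →ₙ+* U) (x : R) (n : ℕ) :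
    f (npw x n) = f x ^ (n + 1) := by
  induction n with
  | zero => simp [npw]
  | succ n ih => rw [npw, map_mul, ih, ← pow_succ']

lemma map_foldr {U : Type u} [CommRing U] (f : R →ₙ+* U) (l : List R) (x : R) :
    f (l.foldr (· * ·) x) = (l.map f).prod * f x := by
  induction l with
  | nil => simp
  | cons a l ih =>
    rw [List.foldr_cons, map_mul, ih, List.map_cons, List.prod_cons, mul_assoc]

lemma nil_nilpotent [Finite R] (M : Set R) (hM : ∀ x ∈ M, ∃ n, npw x n = 0) :
    ∃ n, ∀ (l : List R) (x : R), (∀ a ∈ l, a ∈ M) → l.length = n → l.foldr (· * ·) x = 0 := by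
  obtain ⟨U, _, f, hf⟩ := exists_embedding R
  set J : Ideal U := Ideal.span (f '' M) with hJ
  have hfg : J.FG := ⟨(M.toFinite.image f).toFinset, by rw [Set.Finite.coe_toFinset]⟩
  have hnil : J ≤ nilradical U := by
    rw [hJ, Ideal.span_le]
    rintro _ ⟨a, ha, rfl⟩
    obtain ⟨n, hn⟩ := hM a ha
    rw [SetLike.mem_coe, mem_nilradical]
    refine ⟨n + 1, ?_⟩
    rw [← map_npw, hn, map_zero]
  obtain ⟨n, hn⟩ := (Ideal.FG.isNilpotent_iff_le_nilradical hfg).2 hnil
  refine ⟨n, fun l x hl hlen => ?_⟩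
  have h1 : ∀ l : List R, (∀ a ∈ l, a ∈ M) → (l.map f).prod ∈ J ^ l.length := by
    intro l
    induction l with
    | nil => intro _; simp
    | cons a l ih =>
      intro h
      rw [List.map_cons, List.prod_cons, List.length_cons, pow_succ']
      exact Ideal.mul_mem_mul (Ideal.subset_span ⟨a, h a (by simp), rfl⟩)
        (ih (fun b hb => h b (by simp [hb])))
  have h2 := h1 l hl
  rw [hlen, hn] at h2
  have h3 : (l.map f).prod = 0 := by simpa using h2
  apply hf
  rw [map_foldr, h3, zero_mul, map_zero]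

end powers

/-! ### Terms -/

section terms

variable {R : Type u} [NonUnitalRing R]

/-- The term `t ^ (n + 1)`. -/
def tpow (t : RTerm) : ℕ → RTerm
  | 0 => t
  | n + 1 => .mul t (tpow t n)

lemma eval_tpow (v : ℕ → R) (t : RTerm) (n : ℕ) : (tpow t n).eval v = npw (t.eval v) n := by
  induction n with
  | zero => rfl
  | succ n ih => simp only [tpow, RTerm.eval, ih, npw]

/-- The term `n • t`. -/
def tnsmul (t : RTerm) : ℕ → RTerm
  | 0 => .zero
  | n + 1 => .add (tnsmul t n) t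

lemma eval_tnsmul (v : ℕ → R) (t : RTerm) (n : ℕ) : (tnsmul t n).eval v = n • t.eval v := by
  induction n with
  | zero => simp [tnsmul, RTerm.eval]
  | succ n ih => simp only [tnsmul, RTerm.eval, ih, succ_nsmul]

lemma eval_foldr (v : ℕ → R) (l : List RTerm) (t : RTerm) :
    (l.foldr RTerm.mul t).eval v = (l.map (fun s => s.eval v)).foldr (· * ·) (t.eval v) := by
  induction l with
  | nil => rfl
  | cons a l ih => simp only [List.foldr_cons, RTerm.eval, ih, List.map_cons]

lemma critical_of_term (H : TwoSidedIdeal R) (hH : ∀ I : TwoSidedIdeal R, I ≠ ⊥ → H ≤ I)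
    (f : RTerm) (h1 : ∀ v : ℕ → R, f.eval v ∈ H) (v0 : ℕ → R) (h2 : f.eval v0 ≠ 0) :
    IsCritical R := by
  intro hv
  apply h2
  refine hv f .zero (fun I hI => ?_) v0
  rw [holds_quot]
  intro v
  simp only [RTerm.eval, sub_zero]
  exact hH I hI (h1 v)

lemma ne_bot_iff (I : TwoSidedIdeal R) : I ≠ ⊥ ↔ ∃ x ∈ I, x ≠ 0 := by
  constructor
  · intro h
    by_contra hcon
    push Not at hcon
    apply h
    ext x
    rw [TwoSidedIdeal.mem_bot]
    exact ⟨hcon x, fun h => h ▸ I.zero_mem⟩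
  · rintro ⟨x, hx, hx0⟩ h
    rw [h, TwoSidedIdeal.mem_bot] at hx
    exact hx0 hx

end terms

section ideals

variable {R : Type u} [NonUnitalCommRing R]

/-- An ideal of a commutative ring given by its set of elements. -/
def mkI (s : Set R) (h0 : 0 ∈ s) (ha : ∀ x y, x ∈ s → y ∈ s → x + y ∈ s)
    (hn : ∀ x, x ∈ s → -x ∈ s) (hm : ∀ x y, y ∈ s → x * y ∈ s) : TwoSidedIdeal R :=
  TwoSidedIdeal.mk' s h0 (fun {x y} hx hy => ha x y hx hy) (fun {x} hx => hn x hx)
    (fun {x y} hy => hm x y hy) (fun {x y} hx => by rw [mul_comm]; exact hm y x hx)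

lemma mem_mkI {s : Set R} {h0 ha hn hm} {x : R} : x ∈ mkI s h0 ha hn hm ↔ x ∈ s :=
  TwoSidedIdeal.mem_mk' _ _ _ _ _ _ _

/-- `{y | f y = y}`. -/
def fixI (f : R) : TwoSidedIdeal R :=
  mkI {y | f * y = y} (by simp) (fun x y (hx : f * x = x) (hy : f * y = y) => by
    show f * (x + y) = x + y
    rw [mul_add, hx, hy]) (fun x (hx : f * x = x) => by
    show f * (-x) = -x
    rw [mul_neg, hx]) (fun x y (hy : f * y = y) => by
    show f * (x * y) = x * y
    rw [mul_left_comm, hy])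

lemma mem_fixI {f y : R} : y ∈ fixI f ↔ f * y = y := mem_mkI

/-- `{y | f y = 0}`. -/
def annI (f : R) : TwoSidedIdeal R :=
  mkI {y | f * y = 0} (by simp) (fun x y (hx : f * x = 0) (hy : f * y = 0) => by
    show f * (x + y) = 0
    rw [mul_add, hx, hy, add_zero]) (fun x (hx : f * x = 0) => by
    show f * (-x) = 0
    rw [mul_neg, hx, neg_zero]) (fun x y (hy : f * y = 0) => by
    show f * (x * y) = 0
    rw [mul_left_comm, hy, mul_zero])

lemma mem_annI {f y : R} : y ∈ annI f ↔ f * y = 0 := mem_mkI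

/-- `{x | ∀ h ∈ H, x h = 0}`. -/
def annih (H : TwoSidedIdeal R) : TwoSidedIdeal R :=
  mkI {x | ∀ h ∈ H, x * h = 0} (by simp) (fun x y hx hy h hh => by
    rw [add_mul, hx h hh, hy h hh, add_zero]) (fun x hx h hh => by
    rw [neg_mul, hx h hh, neg_zero]) (fun x y hy h hh => by
    rw [mul_assoc, hy h hh, mul_zero])

lemma mem_annih {H : TwoSidedIdeal R} {x : R} : x ∈ annih H ↔ ∀ h ∈ H, x * h = 0 := mem_mkI

/-- `{r x | r}`. -/
def mulI (x : R) : TwoSidedIdeal R :=
  mkI {y | ∃ r, y = r * x} ⟨0, by simp⟩ (fun a b ⟨r, hr⟩ ⟨t, ht⟩ => ⟨r + t, by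
    rw [hr, ht, add_mul]⟩) (fun a ⟨r, hr⟩ => ⟨-r, by rw [hr, neg_mul]⟩)
    (fun a b ⟨r, hr⟩ => ⟨a * r, by rw [hr, mul_assoc]⟩)

lemma mem_mulI {x y : R} : y ∈ mulI x ↔ ∃ r, y = r * x := mem_mkI

/-- `{x h | h ∈ H}`. -/
def smulI (x : R) (H : TwoSidedIdeal R) : TwoSidedIdeal R :=
  mkI {y | ∃ h ∈ H, y = x * h} ⟨0, H.zero_mem, by simp⟩
    (fun a b ⟨r, hr, hr'⟩ ⟨t, ht, ht'⟩ => ⟨r + t, H.add_mem hr ht, by rw [hr', ht', mul_add]⟩)
    (fun a ⟨r, hr, hr'⟩ => ⟨-r, H.neg_mem hr, by rw [hr', mul_neg]⟩)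
    (fun a b ⟨r, hr, hr'⟩ => ⟨a * r, H.mul_mem_left _ _ hr, by rw [hr', mul_left_comm]⟩)

lemma mem_smulI {x y : R} {H : TwoSidedIdeal R} : y ∈ smulI x H ↔ ∃ h ∈ H, y = x * h := mem_mkI

/-- `{n • y | n : ℤ}` for `y` in the annihilator of `R`. -/
def zI (y : R) (hy : ∀ z, z * y = 0) : TwoSidedIdeal R :=
  mkI {x | ∃ n : ℤ, x = n • y} ⟨0, by simp⟩
    (fun a b ⟨r, hr⟩ ⟨t, ht⟩ => ⟨r + t, by rw [hr, ht, add_smul]⟩)
    (fun a ⟨r, hr⟩ => ⟨-r, by rw [hr, neg_smul]⟩)
    (fun a b ⟨r, hr⟩ => ⟨0, by rw [hr, mul_smul_comm, hy, smul_zero, zero_smul]⟩)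

lemma mem_zI {y x : R} {hy : ∀ z, z * y = 0} : x ∈ zI y hy ↔ ∃ n : ℤ, x = n • y := mem_mkI

lemma foldr_mem (I : TwoSidedIdeal R) (l : List R) (x : R) (hx : x ∈ I) :
    l.foldr (· * ·) x ∈ I := by
  induction l with
  | nil => exact hx
  | cons a l ih => exact I.mul_mem_left _ _ ih

lemma npw_mem (I : TwoSidedIdeal R) (x : R) (n : ℕ) (hx : x ∈ I) : npw x n ∈ I := by
  induction n with
  | zero => exact hx
  | succ n ih => exact I.mul_mem_left _ _ ih

/-- A nonzero idempotent of a ring with a least nonzero ideal is an identity. -/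
lemma idem_identity (H : TwoSidedIdeal R) (hb : H ≠ ⊥)
    (hH : ∀ I : TwoSidedIdeal R, I ≠ ⊥ → H ≤ I) (f : R) (hf : f * f = f) (h0 : f ≠ 0) (y : R) :
    f * y = y := by
  by_contra hy
  have h1 : fixI f ≠ ⊥ := (ne_bot_iff _).2 ⟨f, mem_fixI.2 hf, h0⟩
  have h2 : annI f ≠ ⊥ := (ne_bot_iff _).2 ⟨y - f * y, mem_annI.2 (by
    rw [mul_sub, ← mul_assoc, hf, sub_self]), fun h => hy (sub_eq_zero.1 h).symm⟩
  obtain ⟨h, hh, hne⟩ := (ne_bot_iff _).1 hb
  have h3 := mem_fixI.1 (hH _ h1 hh)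
  have h4 := mem_annI.1 (hH _ h2 hh)
  exact hne (h3.symm.trans h4)

end ideals

/-! ### Rings with a least nonzero ideal -/

section least

variable {R : Type u} [NonUnitalCommRing R]

lemma exists_max' (M : Set R) (n : ℕ)
    (hn : ∀ (l : List R) (x : R), (∀ a ∈ l, a ∈ M) → l.length = n → l.foldr (· * ·) x = 0)
    (x : R) (hx : x ≠ 0) :
    ∃ l : List R, (∀ a ∈ l, a ∈ M) ∧ l.foldr (· * ·) x ≠ 0 ∧
      ∀ m ∈ M, m * l.foldr (· * ·) x = 0 := by
  classical
  have hex : ∃ n, ∀ (l : List R), (∀ a ∈ l, a ∈ M) → l.length = n → l.foldr (· * ·) x = 0 :=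
    ⟨n, fun l h1 h2 => hn l x h1 h2⟩
  obtain ⟨k, hk, hmin⟩ : ∃ k, (∀ (l : List R), (∀ a ∈ l, a ∈ M) → l.length = k →
      l.foldr (· * ·) x = 0) ∧ ∀ j < k, ¬ (∀ (l : List R), (∀ a ∈ l, a ∈ M) → l.length = j →
      l.foldr (· * ·) x = 0) := ⟨Nat.find hex, Nat.find_spec hex, fun j hj => Nat.find_min hex hj⟩
  rcases k with _ | c
  · exact absurd (hk [] (by simp) rfl) (by simpa using hx)
  · have h1 := hmin c (Nat.lt_succ_self c)
    push Not at h1
    obtain ⟨l, h2, h3, h4⟩ := h1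
    refine ⟨l, h2, h4, fun m hm => ?_⟩
    have := hk (m :: l) (by
      intro a ha
      rcases List.mem_cons.1 ha with rfl | h
      · exact hm
      · exact h2 a h) (by simp [h3])
    simpa using this

lemma exists_max (M : Set R) (n : ℕ)
    (hn : ∀ (l : List R) (x : R), (∀ a ∈ l, a ∈ M) → l.length = n → l.foldr (· * ·) x = 0)
    (x0 : R) (hx0 : x0 ≠ 0) :
    ∃ c, (∃ (l : List R) (x : R), (∀ a ∈ l, a ∈ M) ∧ l.length = c ∧ l.foldr (· * ·) x ≠ 0) ∧
      ∀ (l : List R) (x : R), (∀ a ∈ l, a ∈ M) → l.length = c →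
        ∀ m ∈ M, m * l.foldr (· * ·) x = 0 := by
  classical
  have hex : ∃ n, ∀ (l : List R) (x : R), (∀ a ∈ l, a ∈ M) → l.length = n →
      l.foldr (· * ·) x = 0 := ⟨n, hn⟩
  obtain ⟨k, hk, hmin⟩ : ∃ k, (∀ (l : List R) (x : R), (∀ a ∈ l, a ∈ M) → l.length = k →
      l.foldr (· * ·) x = 0) ∧ ∀ j < k, ¬ (∀ (l : List R) (x : R), (∀ a ∈ l, a ∈ M) →
      l.length = j → l.foldr (· * ·) x = 0) :=
    ⟨Nat.find hex, Nat.find_spec hex, fun j hj => Nat.find_min hex hj⟩
  rcases k with _ | c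
  · exact absurd (hk [] x0 (by simp) rfl) (by simpa using hx0)
  · have h1 := hmin c (Nat.lt_succ_self c)
    push Not at h1
    obtain ⟨l, x, h2, h3, h4⟩ := h1
    refine ⟨c, ⟨l, x, h2, h3, h4⟩, fun l x h2 h3 m hm => ?_⟩
    have := hk (m :: l) x (by
      intro a ha
      rcases List.mem_cons.1 ha with rfl | h
      · exact hm
      · exact h2 a h) (by simp [h3])
    simpa using this

variable (H : TwoSidedIdeal R) (hb : H ≠ ⊥) (hH : ∀ I : TwoSidedIdeal R, I ≠ ⊥ → H ≤ I)

include hb hH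

omit hb hH in
lemma npw_smul_eq (x : R) (hx : ∀ h ∈ H, ∃ h' ∈ H, h = x * h') (n : ℕ) :
    ∀ h ∈ H, ∃ h' ∈ H, h = npw x n * h' := by
  induction n with
  | zero => exact hx
  | succ n ih =>
    intro h hh
    obtain ⟨h1, hh1, e1⟩ := ih h hh
    obtain ⟨h2, hh2, e2⟩ := hx h1 hh1
    exact ⟨h2, hh2, by rw [e1, e2, npw, ← mul_assoc, mul_comm (npw x n) x]⟩

lemma mem_annih_iff (N : ℕ) (hN : ∀ x : R, npw x N * npw x N = npw x N) (x : R) :
    x ∈ annih H ↔ npw x N = 0 := by
  obtain ⟨h0, hh0, hne⟩ := (ne_bot_iff _).1 hb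
  constructor
  · intro hx
    by_contra hcon
    have h1 := idem_identity H hb hH (npw x N) (hN x) hcon h0
    have h2 := mem_annih.1 (npw_mem (annih H) x N hx) h0 hh0
    exact hne (h1.symm.trans h2)
  · intro hx
    by_cases hs : smulI x H = ⊥
    · rw [mem_annih]
      intro h hh
      have h1 : x * h ∈ smulI x H := mem_smulI.2 ⟨h, hh, rfl⟩
      rw [hs, TwoSidedIdeal.mem_bot] at h1
      exact h1
    · exfalso
      have h1 := hH _ hs
      obtain ⟨h', _, e⟩ := npw_smul_eq H x (fun h hh => mem_smulI.1 (h1 hh)) N h0 hh0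
      rw [hx, zero_mul] at e
      exact hne e

lemma mem_of_annih (N : ℕ) (hN : ∀ x : R, npw x N * npw x N = npw x N) (e : R)
    (he : ∀ y, e * y = y) (y : R) (hy : ∀ m ∈ annih H, m * y = 0) : y ∈ H := by
  by_cases hy0 : y = 0
  · rw [hy0]; exact H.zero_mem
  have h1 : mulI y ≠ ⊥ := (ne_bot_iff _).2 ⟨y, mem_mulI.2 ⟨e, (he y).symm⟩, hy0⟩
  obtain ⟨h, hh, hne⟩ := (ne_bot_iff _).1 hb
  obtain ⟨r, hr⟩ := mem_mulI.1 (hH _ h1 hh)
  have h2 : npw r N ≠ 0 := by
    intro h3
    exact hne (hr.trans (hy r ((mem_annih_iff H hb hH N hN r).2 h3)))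
  have h3 := idem_identity H hb hH (npw r N) (hN r) h2 y
  have h4 : ∀ n, npw r n * y ∈ H := by
    intro n
    induction n with
    | zero => rw [npw, ← hr]; exact hh
    | succ n ih => rw [npw, mul_assoc]; exact H.mul_mem_left _ _ ih
  rw [← h3]
  exact h4 N

lemma mem_of_prime (y : R) (hy : ∀ z, z * y = 0) (p : ℕ) (hp : p.Prime) (hpy : p • y = 0) :
    y ∈ H := by
  by_cases hy0 : y = 0
  · rw [hy0]; exact H.zero_mem
  have h1 : zI y hy ≠ ⊥ := (ne_bot_iff _).2 ⟨y, mem_zI.2 ⟨1, by simp⟩, hy0⟩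
  obtain ⟨h, hh, hne⟩ := (ne_bot_iff _).1 hb
  obtain ⟨n, hn⟩ := mem_zI.1 (hH _ h1 hh)
  have h2 : ¬ (p : ℤ) ∣ n := by
    rintro ⟨m, rfl⟩
    apply hne
    rw [hn, mul_comm, mul_smul, natCast_zsmul, hpy, smul_zero]
  have h3 : IsCoprime (p : ℤ) n := by
    rw [Int.isCoprime_iff_gcd_eq_one]
    have := (Nat.Prime.coprime_iff_not_dvd hp).2 (fun h => h2 (Int.natCast_dvd.2 h))
    simpa [Int.gcd] using this
  obtain ⟨a, b, hab⟩ := h3
  have h4 : y = b • h := by
    calc y = (a * p + b * n) • y := by rw [hab, one_smul]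
      _ = b • h := by
        rw [add_smul, mul_smul, mul_smul, natCast_zsmul, hpy, smul_zero, zero_add, ← hn]
  rw [h4]
  exact H.zsmul_mem _ hh

/-- The unital case. -/
lemma critical_of_identity [Finite R] (e : R) (he : ∀ y, e * y = y) (he0 : e ≠ 0) :
    IsCritical R := by
  obtain ⟨N, hN⟩ := exists_common_idem R
  obtain ⟨n, hn⟩ := nil_nilpotent {x : R | x ∈ annih H}
    (fun x hx => ⟨N, (mem_annih_iff H hb hH N hN x).1 hx⟩)
  obtain ⟨c, ⟨l0, x0, hl0, hlc, hne⟩, hc⟩ := exists_max _ n hn e he0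
  let g : ℕ → RTerm := fun i => .add (tpow (.var (i + 1)) (N + 1)) (.neg (.var (i + 1)))
  have hg : ∀ (v : ℕ → R) (i : ℕ), (g i).eval v = npw (v (i + 1)) (N + 1) + -(v (i + 1)) := by
    intro v i
    simp only [g, RTerm.eval, eval_tpow]
  have hgM : ∀ (v : ℕ → R) (i : ℕ), (g i).eval v ∈ annih H := by
    intro v i
    rw [hg]
    by_cases hm : v (i + 1) ∈ annih H
    · exact (annih H).add_mem (npw_mem _ _ _ hm) ((annih H).neg_mem hm)
    · have h1 : npw (v (i + 1)) N ≠ 0 := fun h => hm ((mem_annih_iff H hb hH N hN _).2 h)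
      have h2 := idem_identity H hb hH _ (hN _) h1 (v (i + 1))
      rw [npw, mul_comm, h2, add_neg_cancel]
      exact (annih H).zero_mem
  refine critical_of_term H hH (((List.range c).map g).foldr RTerm.mul (.var 0)) (fun v => ?_)
    (fun k => match k with
      | 0 => x0
      | i + 1 => -(l0.getD i 0)) ?_
  · rw [eval_foldr]
    apply mem_of_annih H hb hH N hN e he
    apply hc
    · intro a ha
      simp only [List.map_map, List.mem_map, List.mem_range, Function.comp] at ha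
      obtain ⟨i, _, rfl⟩ := ha
      exact hgM v i
    · simp
  · rw [eval_foldr]
    have h1 : (List.map (fun s => RTerm.eval (fun k => match k with
      | 0 => x0
      | i + 1 => -(l0.getD i 0)) s) ((List.range c).map g)) = l0 := by
      apply List.ext_getElem
      · simp [hlc]
      · intro i h1 h2
        simp only [List.getElem_map, List.getElem_range, hg]
        have h3 : l0.getD i 0 = l0[i] := List.getD_eq_getElem _ _ h2
        have h4 : -(l0[i]) ∈ annih H := (annih H).neg_mem (hl0 _ (List.getElem_mem h2))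
        rw [h3, npw, (mem_annih_iff H hb hH N hN _).1 h4, mul_zero, zero_add, neg_neg]
    rw [h1]
    exact hne

/-- The nilpotent case. -/
lemma critical_of_nil [Finite R] (N : ℕ) (hN : ∀ x : R, npw x N = 0) :
    IsCritical R := by
  classical
  obtain ⟨h0, hh0, hne0⟩ := (ne_bot_iff _).1 hb
  obtain ⟨n, hn⟩ := nil_nilpotent (Set.univ : Set R) (fun x _ => ⟨N, hN x⟩)
  obtain ⟨c, ⟨l0, x0, hl0, hlc, hne⟩, hc⟩ := exists_max _ n hn h0 hne0
  have hex : ∃ m, 0 < m ∧ ∀ (l : List R) (x : R), l.length = c → m • l.foldr (· * ·) x = 0 :=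
    ⟨AddMonoid.exponent R, Nat.pos_of_ne_zero AddMonoid.exponent_ne_zero_of_finite,
      fun l x _ => AddMonoid.exponent_nsmul_eq_zero _⟩
  obtain ⟨m, ⟨hm0, hm⟩, hmin⟩ : ∃ m, (0 < m ∧ ∀ (l : List R) (x : R), l.length = c →
      m • l.foldr (· * ·) x = 0) ∧ ∀ j < m, ¬ (0 < j ∧ ∀ (l : List R) (x : R), l.length = c →
      j • l.foldr (· * ·) x = 0) := ⟨Nat.find hex, Nat.find_spec hex, fun j hj =>
        Nat.find_min hex hj⟩
  have hm1 : m ≠ 1 := by
    rintro rfl
    apply hne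
    have := hm l0 x0 hlc
    simpa using this
  have hp := Nat.minFac_prime hm1
  obtain ⟨k, hk⟩ := Nat.minFac_dvd m
  set p := m.minFac with hpdef
  have hk0 : 0 < k := by
    rcases Nat.eq_zero_or_pos k with h | h
    · rw [h, mul_zero] at hk; omega
    · exact h
  have hkm : k < m := by
    rw [hk]
    nlinarith [hp.two_le]
  have h1 := hmin k hkm
  push Not at h1
  obtain ⟨l1, x1, hl1, hne1⟩ := h1 hk0
  refine critical_of_term H hH
    (tnsmul (((List.range c).map (fun i => RTerm.var (i + 1))).foldr RTerm.mul (.var 0)) k)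
    (fun v => ?_)
    (fun k => match k with
      | 0 => x1
      | i + 1 => l1.getD i 0) ?_
  · rw [eval_tnsmul, eval_foldr]
    apply mem_of_prime H hb hH _ _ p hp
    · rw [← mul_smul, ← hk]
      exact hm _ _ (by simp)
    · intro z
      rw [mul_smul_comm, hc _ _ (fun _ _ => Set.mem_univ _) (by simp) z (Set.mem_univ _),
        smul_zero]
  · rw [eval_tnsmul, eval_foldr]
    have h1 : (List.map (fun s => RTerm.eval (fun k => match k with
      | 0 => x1
      | i + 1 => l1.getD i 0) s) ((List.range c).map (fun i => RTerm.var (i + 1)))) = l1 := by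
      apply List.ext_getElem
      · simp [hl1]
      · intro i h1 h2
        simp only [List.getElem_map, List.getElem_range, RTerm.eval]
        exact List.getD_eq_getElem _ _ h2
    rw [h1]
    exact hne1

end least

/-! ### The structure of rings with a least nonzero ideal -/

section structure_part

variable {R : Type u} [NonUnitalCommRing R]

/-- The annihilator of `R` as an additive subgroup. -/
def annGroup (R : Type u) [NonUnitalCommRing R] : AddSubgroup R where
  carrier := {x | ∀ y : R, x * y = 0}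
  zero_mem' := by intro y; simp
  add_mem' := by
    intro a b ha hb y
    rw [add_mul, ha y, hb y, add_zero]
  neg_mem' := by
    intro a ha y
    rw [neg_mul, ha y, neg_zero]

lemma mem_annGroup {x : R} : x ∈ annGroup R ↔ ∀ y : R, x * y = 0 := Iff.rfl

lemma local_of_least [Finite R] (H : TwoSidedIdeal R) (hb : H ≠ ⊥)
    (hH : ∀ I : TwoSidedIdeal R, I ≠ ⊥ → H ≤ I) (e : R) (he : ∀ y, e * y = y) (he0 : e ≠ 0) :
    IsLocalWithSimpleSocle R := by
  obtain ⟨N, hN⟩ := exists_common_idem R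
  obtain ⟨h0, hh0, hne0⟩ := (ne_bot_iff _).1 hb
  refine ⟨e, he0, he, annih H, ?_, ?_, H, ?_, ?_⟩
  · intro h
    have h1 : e ∈ annih H := by rw [h]; trivial
    exact hne0 ((he h0).symm.trans (mem_annih.1 h1 h0 hh0))
  · intro I hI x hx
    by_contra hcon
    apply hI
    have h1 : npw x N ≠ 0 := fun h => hcon ((mem_annih_iff H hb hH N hN _).2 h)
    have h2 := idem_identity H hb hH _ (hN _) h1
    ext y
    refine ⟨fun _ => trivial, fun _ => ?_⟩
    rw [← h2 y]
    exact I.mul_mem_right _ _ (npw_mem I x N hx)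
  · intro x
    constructor
    · intro hx m hm
      exact mem_annih.1 hm x hx
    · intro hx
      exact mem_of_annih H hb hH N hN e he x hx
  · refine ⟨hb, fun I hI => ?_⟩
    by_contra hcon
    exact absurd (hH I hcon) (not_le_of_gt hI)

lemma nilpotent_of_least [Finite R] (H : TwoSidedIdeal R) (hb : H ≠ ⊥)
    (hH : ∀ I : TwoSidedIdeal R, I ≠ ⊥ → H ≤ I) (N : ℕ) (hN : ∀ x : R, npw x N = 0) :
    IsNilpotentWithCyclicAnnihilator R := by
  classical
  obtain ⟨h0, hh0, hne0⟩ := (ne_bot_iff _).1 hb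
  obtain ⟨n, hn⟩ := nil_nilpotent (Set.univ : Set R) (fun x _ => ⟨N, hN x⟩)
  refine ⟨⟨n, fun l x hl => hn l x (fun _ _ => Set.mem_univ _) hl⟩, ?_⟩
  obtain ⟨l, _, hly, hlz⟩ := exists_max' _ n hn h0 hne0
  set y0 : R := l.foldr (· * ·) h0 with hy0
  have hy0' : ∀ z, z * y0 = 0 := fun z => hlz z (Set.mem_univ _)
  have hann : ∀ {y : R}, y ∈ annGroup R → ∀ z, z * y = 0 := by
    intro y hy z
    rw [mul_comm]; exact hy z
  -- characters separate, hence the annihilator is cyclic
  have hHann : ∀ h ∈ H, h ∈ annGroup R := by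
    intro h hh
    have h1 : zI y0 hy0' ≠ ⊥ := (ne_bot_iff _).2 ⟨y0, mem_zI.2 ⟨1, by simp⟩, hly⟩
    obtain ⟨k, hk⟩ := mem_zI.1 (hH _ h1 hh)
    intro z
    rw [hk, smul_mul_assoc, mul_comm, hy0', smul_zero]
  have hcyc : IsCyclic (Multiplicative (annGroup R)) := by
    obtain ⟨ψ, hψ⟩ := (AddChar.exists_apply_ne_zero (a := (⟨h0, hHann h0 hh0⟩ : annGroup R))).2
      (fun h => hne0 (congrArg Subtype.val h))
    have hinj : Function.Injective (AddChar.toMonoidHom ψ) := by
      rw [injective_iff_map_eq_one]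
      intro a ha
      by_contra hne
      set y : R := ((Multiplicative.toAdd a : annGroup R) : R) with hy
      have hya : y ∈ annGroup R := (Multiplicative.toAdd a : annGroup R).2
      have hy1 : y ≠ 0 := by
        intro h
        apply hne
        have : (Multiplicative.toAdd a : annGroup R) = 0 := Subtype.ext h
        exact this
      have h1 : zI y (hann hya) ≠ ⊥ := (ne_bot_iff _).2 ⟨y, mem_zI.2 ⟨1, by simp⟩, hy1⟩
      obtain ⟨k, hk⟩ := mem_zI.1 (hH _ h1 hh0)
      apply hψ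
      have h2 : (⟨h0, hHann h0 hh0⟩ : annGroup R) = k • (Multiplicative.toAdd a : annGroup R) := by
        apply Subtype.ext
        rw [AddSubgroup.coe_zsmul]
        exact hk
      rw [h2, AddChar.map_zsmul_eq_zpow]
      have h3 : ψ (Multiplicative.toAdd a) = 1 := ha
      rw [h3, one_zpow]
    exact isCyclic_of_injective_ringHom _ hinj
  obtain ⟨g', hg'⟩ := (isCyclic_multiplicative_iff.1 hcyc).exists_generator
  have hgen : ∀ x : R, (∀ y : R, x * y = 0) ↔ ∃ n : ℤ, x = n • (g' : R) := by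
    intro x
    constructor
    · intro hx
      obtain ⟨n, hn⟩ := AddSubgroup.mem_zmultiples_iff.1 (hg' ⟨x, hx⟩)
      exact ⟨n, by
        have := congrArg Subtype.val hn
        rw [AddSubgroup.coe_zsmul] at this
        exact this.symm⟩
    · rintro ⟨n, rfl⟩ y
      rw [smul_mul_assoc, g'.2 y, smul_zero]
  have hg0 : (g' : R) ≠ 0 := by
    intro h
    obtain ⟨n, hn⟩ := (hgen h0).1 (hHann h0 hh0)
    rw [h, smul_zero] at hn
    exact hne0 hn
  set m := addOrderOf (g' : R) with hm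
  have hm0 : m ≠ 0 := (addOrderOf_pos (g' : R)).ne'
  have hm1 : m ≠ 1 := by
    intro h
    exact hg0 (AddMonoid.addOrderOf_eq_one_iff.1 h)
  have hdiv : ∀ q : ℕ, q.Prime → q ∣ m → q • h0 = 0 := by
    intro q hq ⟨k, hk⟩
    have h1 : k • (g' : R) ≠ 0 := by
      intro h
      have h2 := addOrderOf_dvd_of_nsmul_eq_zero h
      rw [← hm, hk] at h2
      have hk0 : k ≠ 0 := by
        rintro rfl
        exact hm0 (by rw [hk, mul_zero])
      have h3 := Nat.le_of_dvd (Nat.pos_of_ne_zero hk0) h2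
      nlinarith [hq.two_le, Nat.pos_of_ne_zero hk0]
    have h2 : ∀ z, z * (k • (g' : R)) = 0 := by
      intro z
      rw [mul_smul_comm, hann g'.2, smul_zero]
    have h3 : zI _ h2 ≠ ⊥ := (ne_bot_iff _).2 ⟨_, mem_zI.2 ⟨1, by simp⟩, h1⟩
    obtain ⟨j, hj⟩ := mem_zI.1 (hH _ h3 hh0)
    rw [hj, smul_comm, ← mul_smul q k, ← hk, hm, addOrderOf_nsmul_eq_zero, smul_zero]
  have hpp : m = m.minFac ^ m.primeFactorsList.length := by
    apply Nat.eq_prime_pow_of_unique_prime_dvd hm0
    intro d hd hdm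
    by_contra hne
    have hco : Nat.Coprime d m.minFac := (Nat.coprime_primes hd (Nat.minFac_prime hm1)).2 hne
    have h1 := hdiv d hd hdm
    have h2 := hdiv _ (Nat.minFac_prime hm1) (Nat.minFac_dvd m)
    have h3 := addOrderOf_dvd_of_nsmul_eq_zero h1
    have h4 := addOrderOf_dvd_of_nsmul_eq_zero h2
    have h5 := Nat.dvd_gcd h3 h4
    rw [hco] at h5
    exact hne0 (AddMonoid.addOrderOf_eq_one_iff.1 (Nat.dvd_one.1 h5))
  refine ⟨m.minFac, m.primeFactorsList.length, g', Nat.minFac_prime hm1, ?_, hpp, hgen⟩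
  rcases Nat.eq_zero_or_pos m.primeFactorsList.length with h | h
  · rw [h, pow_zero] at hpp
    exact absurd hpp hm1
  · exact h

lemma least_of_local [Finite R] (h : IsLocalWithSimpleSocle R) : HasLeastNonzeroIdeal R := by
  obtain ⟨e, he0, he, M, hM, hmax, S, hS, hat⟩ := h
  obtain ⟨N, hN⟩ := exists_common_idem R
  have hnil : ∀ x ∈ M, ∃ n, npw x n = 0 := by
    intro x hx
    refine ⟨N, ?_⟩
    by_contra hcon
    have h1 : annI (npw x N) ≠ ⊤ := by
      intro h
      have : npw x N ∈ annI (npw x N) := by rw [h]; trivial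
      exact hcon ((hN x).symm.trans (mem_annI.1 this))
    have h2 : e - npw x N ∈ M := hmax _ h1 (mem_annI.2 (by
      rw [mul_sub, hN x, mul_comm, he, sub_self]))
    have h3 : e ∈ M := by
      have := M.add_mem h2 (npw_mem M x N hx)
      simpa using this
    apply hM
    ext y
    refine ⟨fun _ => trivial, fun _ => ?_⟩
    rw [← he y]
    exact M.mul_mem_right _ _ h3
  obtain ⟨n, hn⟩ := nil_nilpotent {x : R | x ∈ M} hnil
  refine ⟨S, hat.1, fun I hI => ?_⟩
  obtain ⟨x, hx, hx0⟩ := (ne_bot_iff _).1 hI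
  obtain ⟨l, _, hly, hlz⟩ := exists_max' _ n hn x hx0
  have h1 : l.foldr (· * ·) x ∈ S := (hS _).2 hlz
  have h2 : l.foldr (· * ·) x ∈ I := foldr_mem I l x hx
  by_contra hcon
  have h3 : S ⊓ I < S := by
    refine lt_of_le_of_ne inf_le_left (fun h => hcon ?_)
    rw [← h]; exact inf_le_right
  have h4 := hat.2 _ h3
  have h5 : l.foldr (· * ·) x ∈ S ⊓ I := by
    rw [TwoSidedIdeal.mem_inf]
    exact ⟨h1, h2⟩
  rw [h4, TwoSidedIdeal.mem_bot] at h5
  exact hly h5

lemma least_of_nilpotent (h : IsNilpotentWithCyclicAnnihilator R) : HasLeastNonzeroIdeal R := by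
  obtain ⟨⟨n, hn⟩, p, k, g, hp, hk, hord, hgen⟩ := h
  have hg : ∀ y, g * y = 0 := (hgen g).2 ⟨1, by simp⟩
  have hz : ∀ z, z * (p ^ (k - 1) • g) = 0 := by
    intro z
    rw [mul_smul_comm, mul_comm, hg, smul_zero]
  have hne : p ^ (k - 1) • g ≠ 0 := by
    intro h
    have h1 := addOrderOf_dvd_of_nsmul_eq_zero h
    rw [hord, Nat.pow_dvd_pow_iff_le_right hp.one_lt] at h1
    omega
  refine ⟨zI _ hz, (ne_bot_iff _).2 ⟨_, mem_zI.2 ⟨1, by simp⟩, hne⟩, fun I hI => ?_⟩
  obtain ⟨x, hx, hx0⟩ := (ne_bot_iff _).1 hI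
  obtain ⟨l, _, hly, hlz⟩ := exists_max' Set.univ n (fun l x _ h => hn l x h) x hx0
  have h2 : l.foldr (· * ·) x ∈ I := foldr_mem I l x hx
  set y : R := l.foldr (· * ·) x with hy
  obtain ⟨j, hj⟩ := (hgen y).1 (fun z => by rw [mul_comm]; exact hlz z (Set.mem_univ _))
  have hpk : (p ^ k : ℕ) • g = 0 := by rw [← hord]; exact addOrderOf_nsmul_eq_zero g
  obtain ⟨i, hi, hgcd⟩ := (Nat.dvd_prime_pow hp).1
    (show Int.gcd j (p ^ k : ℕ) ∣ p ^ k by
      have := Int.gcd_dvd_right j ((p ^ k : ℕ) : ℤ)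
      exact_mod_cast this)
  have hik : i ≠ k := by
    rintro rfl
    apply hly
    have h3 : ((p ^ i : ℕ) : ℤ) ∣ j := by
      rw [← hgcd]; exact Int.gcd_dvd_left _ _
    obtain ⟨t, ht⟩ := h3
    rw [hj, ht, mul_comm, mul_smul, natCast_zsmul, hpk, smul_zero]
  have h4 : (p ^ i : ℕ) • g = Int.gcdA j (p ^ k : ℕ) • y := by
    have h5 := Int.gcd_eq_gcd_ab j ((p ^ k : ℕ) : ℤ)
    rw [hgcd] at h5
    calc (p ^ i : ℕ) • g = ((p ^ i : ℕ) : ℤ) • g := (natCast_zsmul _ _).symm
      _ = (j * Int.gcdA j (p ^ k : ℕ) + ((p ^ k : ℕ) : ℤ) * Int.gcdB j (p ^ k : ℕ)) • g := by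
        rw [h5]
      _ = Int.gcdA j (p ^ k : ℕ) • y := by
        rw [add_smul, mul_comm j, mul_smul, ← hj, mul_comm ((p ^ k : ℕ) : ℤ), mul_smul,
          natCast_zsmul, hpk, smul_zero, add_zero]
  intro z hzm
  obtain ⟨t, ht⟩ := mem_zI.1 hzm
  rw [ht]
  apply I.zsmul_mem
  have h6 : p ^ (k - 1) = p ^ (k - 1 - i) * p ^ i := by
    rw [← pow_add]; congr 1; omega
  rw [h6, mul_smul, h4]
  exact I.nsmul_mem _ (I.zsmul_mem _ h2)

end structure_part

/-- A finite commutative ring is critical (it does not lie in the variety generated by its proper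
quotient rings) if and only if it has a least nonzero ideal, if and only if it is either a local
ring with identity whose socle is simple, or a nilpotent ring whose annihilator is a cyclic group
of prime power order `p ^ k > 1`. -/
theorem result (R : Type u) [NonUnitalCommRing R] [Finite R] :
    (IsCritical R ↔ HasLeastNonzeroIdeal R) ∧
    (HasLeastNonzeroIdeal R ↔
      IsLocalWithSimpleSocle R ∨ IsNilpotentWithCyclicAnnihilator R) := by
  obtain ⟨N, hN⟩ := exists_common_idem R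
  have hcase : (∃ e : R, e * e = e ∧ e ≠ 0) ∨ ∀ x : R, npw x N = 0 := by
    by_cases h : ∀ x : R, npw x N = 0
    · exact Or.inr h
    · push Not at h
      obtain ⟨x, hx⟩ := h
      exact Or.inl ⟨_, hN x, hx⟩
  refine ⟨⟨least_of_critical, ?_⟩, ?_, ?_⟩
  · rintro ⟨H, hb, hH⟩
    rcases hcase with ⟨e, he, he0⟩ | h
    · exact critical_of_identity H hb hH e (idem_identity H hb hH e he he0) he0
    · exact critical_of_nil H hb hH N h
  · rintro ⟨H, hb, hH⟩
    rcases hcase with ⟨e, he, he0⟩ | h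
    · exact Or.inl (local_of_least H hb hH e (idem_identity H hb hH e he he0) he0)
    · exact Or.inr (nilpotent_of_least H hb hH N h)
  · rintro (h | h)
    · exact least_of_local h
    · exact least_of_nilpotent h

end Pool.Agent.Results.MP_c0911c_al.CriticalRings
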